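import Mathlib

/-!
# SplR/Defs: generic dimension of bivariate `C^r` splines (MP_92924b_an), definitions

GOAL (file `Final`): for `k ≥ K(r) = ⌈(3r+1+⌊(r+⌊r/2⌋)/2⌋+2⌊r/2⌋)/2⌉` (about `19r/8`; `r = 1, 2, 3, 4, 5`: `k ≥ 2, 5, 7, 10, 12`) the
generic dimension of `S^r_k(Δ)`, `Δ` a triangulated disc, is Schumaker's number
`α + β #E_I - γ #V_I + ∑_{v ∈ V_I} σ_v`, `σ_v` computed with the degree of `v`.

* Combinatorics of a triangulation: a finite vertex type `V` and the set `T : Finset (Finset V)` of triangles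
  (3-element sets). `tri T e`: triangles containing `e`; `edges`, `intEdges`, `bdEdges`, `intVerts`, `deg`.
* `IsDisc T`: `T` is a triangulated disc.
* `IsGeom T p`: the points `p v` realise `T` as a (geometric) triangulation of a plane domain.
* `spline r k T p`: the space of splines.
* `DS`: the dual algebraic system of the proof (see `DS` below and the files `Con`, `Del`, `Full`).
-/

namespace Pool.SplR

open Finset

section Comb

variable {V : Type} [DecidableEq V]

/-- the triangles of `T` containing the set `e` -/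
def tri (T : Finset (Finset V)) (e : Finset V) : Finset (Finset V) := T.filter (fun t => e ⊆ t)

/-- the edges: two-element subsets of triangles -/
def edges (T : Finset (Finset V)) : Finset (Finset V) := T.biUnion (fun t => t.powersetCard 2)

/-- interior edges: they lie in two triangles -/
def intEdges (T : Finset (Finset V)) : Finset (Finset V) :=
  (edges T).filter (fun e => (tri T e).card = 2)

/-- boundary edges: they lie in one triangle -/
def bdEdges (T : Finset (Finset V)) : Finset (Finset V) :=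
  (edges T).filter (fun e => (tri T e).card = 1)

/-- interior vertices: all their edges are interior edges -/
def intVerts [Fintype V] (T : Finset (Finset V)) : Finset V :=
  Finset.univ.filter (fun v => ∀ e ∈ edges T, v ∈ e → (tri T e).card = 2)

/-- the number of edges at a vertex -/
def deg (T : Finset (Finset V)) (v : V) : ℕ := ((edges T).filter (fun e => v ∈ e)).card

/-- `T` is a triangulated disc: a connected combinatorial surface (every edge in one or two triangles, the triangles at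
a vertex form a fan or a wheel) with nonempty connected boundary and Euler characteristic `1`. -/
structure IsDisc [Fintype V] (T : Finset (Finset V)) : Prop where
  card3 : ∀ t ∈ T, t.card = 3
  cover : ∀ v : V, ∃ t ∈ T, v ∈ t
  edge : ∀ e ∈ edges T, (tri T e).card ≤ 2
  star : ∀ v : V, ∀ s ∈ T, ∀ t ∈ T, v ∈ s → v ∈ t →
    Relation.ReflTransGen (fun a b => a ∈ T ∧ b ∈ T ∧ v ∈ a ∧ v ∈ b ∧ (a ∩ b).card = 2) s t
  conn : ∀ s ∈ T, ∀ t ∈ T,
    Relation.ReflTransGen (fun a b => a ∈ T ∧ b ∈ T ∧ (a ∩ b).card = 2) s t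
  bd : (bdEdges T).Nonempty
  bdconn : ∀ e ∈ bdEdges T, ∀ f ∈ bdEdges T,
    Relation.ReflTransGen (fun a b => a ∈ bdEdges T ∧ b ∈ bdEdges T ∧ (a ∩ b).Nonempty) e f
  euler : Fintype.card V + T.card = (edges T).card + 1

/-- the graph of `T` -/
def gr (T : Finset (Finset V)) : SimpleGraph V where
  Adj x y := x ≠ y ∧ ∃ t ∈ T, x ∈ t ∧ y ∈ t
  symm := ⟨fun _ _ h => ⟨h.1.symm, by
    obtain ⟨t, ht, hx, hy⟩ := h.2
    exact ⟨t, ht, hy, hx⟩⟩⟩
  loopless := ⟨fun _ h => h.1 rfl⟩

/-- the vertices occurring in `T` -/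
def verts (T : Finset (Finset V)) : Finset V := T.biUnion id

/-- closed surfaces with vanishing first cohomology mod 2 (spheres) -/
structure Clo (T : Finset (Finset V)) : Prop where
  card3 : ∀ t ∈ T, t.card = 3
  two : ∀ e ∈ edges T, (tri T e).card = 2
  star : ∀ (v : V) (X : Finset (Finset V)), X ⊆ T → X.Nonempty → (∀ a ∈ X, v ∈ a) →
    (∀ a ∈ X, ∀ b ∈ T, v ∈ b → (a ∩ b).card = 2 → b ∈ X) → ∀ b ∈ T, v ∈ b → b ∈ X
  conn : ∀ X : Finset (Finset V), X ⊆ T → X.Nonempty →
    (∀ a ∈ X, ∀ b ∈ T, (a ∩ b).card = 2 → b ∈ X) → X = T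
  h1 : ∀ f : V → V → ZMod 2, (∀ x y, f x y = f y x) →
    (∀ x y z, ({x, y, z} : Finset V) ∈ T → f x y + f y z + f x z = 0) →
    ∃ g : V → ZMod 2, ∀ x y, (gr T).Adj x y → f x y = g x + g y

/-- contraction of the vertex `v` into `A` -/
def contr (G : SimpleGraph V) (A v : V) : SimpleGraph V where
  Adj x y := x ≠ y ∧ x ≠ v ∧ y ≠ v ∧ (G.Adj x y ∨ (x = A ∧ G.Adj v y) ∨ (y = A ∧ G.Adj v x))
  symm := ⟨fun _ _ h => ⟨h.1.symm, h.2.2.1, h.2.1, by
    rcases h.2.2.2 with h | h | h
    · exact Or.inl h.symm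
    · exact Or.inr (Or.inr h)
    · exact Or.inr (Or.inl h)⟩⟩
  loopless := ⟨fun _ h => h.1 rfl⟩

/-- the interior vertices `I` can be contracted one after the other into `A`, each of them having at least two common
neighbours with `A` at the time of its contraction -/
inductive Elim (A : V) : SimpleGraph V → Finset V → Prop
  | nil (G : SimpleGraph V) : Elim A G ∅
  | step (G : SimpleGraph V) (I : Finset V) (v a b : V) (hv : v ∈ I) (hvA : G.Adj v A) (hab : a ≠ b)
      (hva : G.Adj v a) (hvb : G.Adj v b) (hAa : G.Adj A a) (hAb : G.Adj A b)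
      (h : Elim A (contr G A v) (I.erase v)) : Elim A G I

end Comb

section Geom

variable {V : Type} [DecidableEq V]

/-- the points `p v` realise `T` as a triangulation: triangles are nondegenerate and meet in common faces -/
structure IsGeom (T : Finset (Finset V)) (p : V → Fin 2 → ℝ) : Prop where
  nondeg : ∀ t ∈ T, AffineIndependent ℝ (fun x : t => p x)
  proper : ∀ s ∈ T, ∀ t ∈ T, convexHull ℝ (p '' (s : Set V)) ∩ convexHull ℝ (p '' (t : Set V)) =
    convexHull ℝ (p '' ((s ∩ t : Finset V) : Set V))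

/-- polynomials in two variables -/
abbrev PP := MvPolynomial (Fin 2) ℝ

/-- partial derivatives of order `(a, b)` -/
noncomputable def dd (a b : ℕ) : PP →ₗ[ℝ] PP :=
  ((MvPolynomial.pderiv (R := ℝ) (0 : Fin 2)).toLinearMap ^ a) *
    ((MvPolynomial.pderiv (R := ℝ) (1 : Fin 2)).toLinearMap ^ b)

/-- the space `S^r_k(Δ)`: one polynomial of total degree at most `k` for every triangle, such that for triangles with a
common edge all partial derivatives of order at most `r` agree on this edge -/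
noncomputable def spline (r k : ℕ) (T : Finset (Finset V)) (p : V → Fin 2 → ℝ) :
    Submodule ℝ (T → PP) where
  carrier := {s | (∀ t, (s t).totalDegree ≤ k) ∧ ∀ t u : T, (t.1 ∩ u.1).card = 2 →
    ∀ z ∈ convexHull ℝ (p '' ((t.1 ∩ u.1 : Finset V) : Set V)), ∀ a b, a + b ≤ r →
      MvPolynomial.eval z (dd a b (s t)) = MvPolynomial.eval z (dd a b (s u))}
  zero_mem' := by
    refine ⟨fun t => ?_, fun t u _ z _ a b _ => ?_⟩
    · simp
    · simp
  add_mem' := by
    rintro s s' ⟨h1, h2⟩ ⟨h1', h2'⟩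
    refine ⟨fun t => ?_, fun t u htu z hz a b hab => ?_⟩
    · exact (MvPolynomial.totalDegree_add _ _).trans (max_le (h1 t) (h1' t))
    · simp only [Pi.add_apply, map_add]
      rw [h2 t u htu z hz a b hab, h2' t u htu z hz a b hab]
  smul_mem' := by
    rintro c s ⟨h1, h2⟩
    refine ⟨fun t => ?_, fun t u htu z hz a b hab => ?_⟩
    · exact (MvPolynomial.totalDegree_smul_le _ _).trans (h1 t)
    · simp only [Pi.smul_apply, map_smul]
      rw [MvPolynomial.smul_eval, MvPolynomial.smul_eval, h2 t u htu z hz a b hab]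

/-- `σ_v` for a vertex with `e` slopes (natural subtraction is the positive part) -/
def sigma (r k e : ℕ) : ℕ := ∑ j ∈ Finset.Icc 1 (k - r), (r + j + 1 - j * e)

/-- cross product -/
def cr (u w : Fin 2 → ℝ) : ℝ := u 0 * w 1 - u 1 * w 0

/-- the affine function `l(z) = (y - x) × (z - x)` vanishing on the line `xy` -/
noncomputable def ell (x y : Fin 2 → ℝ) : PP :=
  MvPolynomial.C (y 0 - x 0) * (MvPolynomial.X 1 - MvPolynomial.C (x 1)) -
    MvPolynomial.C (y 1 - x 1) * (MvPolynomial.X 0 - MvPolynomial.C (x 0))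

/-- `L_e`: the multiples of `l_e^(r+1)` of total degree at most `k` -/
noncomputable def LE (r k : ℕ) (x y : Fin 2 → ℝ) : Submodule ℝ PP :=
  (MvPolynomial.restrictTotalDegree (Fin 2) ℝ k) ⊓
    (Ideal.span {ell x y ^ (r + 1)}).restrictScalars ℝ

end Geom

/-! ### the dual system

Polynomials in two variables near a vertex `x` are written in local coordinates `X_0 = z_0 - x_0`, `X_1 = z_1 - x_1`; the
homogeneous part of degree `r+1+t` (level `t`) is `X_0^(r+1+t) f(X_1/X_0)`, `f` a polynomial in one variable of degree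
at most `r+1+t`. A functional is a family `Λ x t : ℝ[X] → ℝ`. If `δ = y - x` is the direction of the edge `xy`,
`l_e^(r+1+i) (z_0 - x_0)^j` has level `i + j` and is `(δ_0 X - δ_1)^(r+1+i)`. For a polynomial `h(z_0)` the value of the
functional at `x` on `l_e^(r+1+i) h(z_0)` is therefore `LL r D (Λ x) i (lin δ) (taylor (x_0) h)`. -/

section Dual

open Polynomial

/-- `δ_0 X - δ_1` -/
noncomputable def lin (d : Fin 2 → ℝ) : ℝ[X] := C (d 0) * X - C (d 1)

/-- value of a functional on `w^(r+1+i) h` -/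
noncomputable def LL (r D : ℕ) (Λ : ℕ → ℝ[X] →ₗ[ℝ] ℝ) (i : ℕ) (w h : ℝ[X]) : ℝ :=
  ∑ j ∈ Finset.range (D + 1 - i), h.coeff j * Λ (i + j) (w ^ (r + 1 + i))

variable {W : Type}

/-- the functionals agree on all columns: `q x` is the order required at `x` -/
def Sys (r D : ℕ) (q : W → ℕ) (τ : W → ℝ) (δ : W → W → Fin 2 → ℝ) (G : SimpleGraph W)
    (Λ : W → ℕ → ℝ[X] →ₗ[ℝ] ℝ) : Prop :=
  ∀ x y, G.Adj x y → ∀ i, ∀ h : ℝ[X], h.natDegree + i ≤ D →
    (X - C (τ x)) ^ (q x - i) * (X - C (τ y)) ^ (q y - i) ∣ h →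
    LL r D (Λ x) i (lin (δ x y)) (taylor (τ x) h) = LL r D (Λ y) i (lin (δ x y)) (taylor (τ y) h)

/-- every functional supported on the vertices of `I` which agrees on all columns vanishes in the levels
`q0 ≤ t ≤ D` -/
def DS (r D q0 : ℕ) (q : W → ℕ) (I : Finset W) (τ : W → ℝ) (δ : W → W → Fin 2 → ℝ)
    (G : SimpleGraph W) : Prop :=
  ∀ Λ : W → ℕ → ℝ[X] →ₗ[ℝ] ℝ, (∀ x, x ∉ I → Λ x = 0) → Sys r D q τ δ G Λ →
    ∀ x ∈ I, ∀ t, q0 ≤ t → t ≤ D → ∀ f : ℝ[X], f.natDegree ≤ r + 1 + t → Λ x t f = 0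

/-- the orders: `q0` at the vertices of `I`, `q1` at `A`, `0` at the other pinned vertices -/
def ordq [DecidableEq W] (q0 q1 : ℕ) (A : W) (I : Finset W) (x : W) : ℕ :=
  if x ∈ I then q0 else if x = A then q1 else 0

/-- first coordinates of the points -/
def tau (p : W → Fin 2 → ℝ) (x : W) : ℝ := p x 0

/-- directions of the edges -/
def del (p : W → Fin 2 → ℝ) (x y : W) : Fin 2 → ℝ := p y - p x

/-- the numerical conditions -/
structure Num (r D q0 q1 : ℕ) : Prop where
  h1 : r ≤ 2 * q0 + 1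
  h2 : q0 ≤ q1
  h3 : r + q0 ≤ 2 * q1 + 1
  h4 : q1 ≤ 2 * q0 + 1
  h5 : q1 ≤ r + 1
  h6 : r + q1 + 2 * q0 ≤ 2 * D + 1
  h7 : 2 * q0 ≤ D + 1

end Dual

end Pool.SplR
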